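import Mathlib
import Pool.Agent.Helper35.HC.Sc

set_option autoImplicit false
set_option maxHeartbeats 4000000

namespace Helper35.HC

/-- Bernstein form -/
noncomputable def Pbx1_0 (a b b' e e' : ℝ) : ℝ :=
    (((297/250) + (26673/2000)*a^1 + (5399/100)*a^2 + (7253/80)*a^3 + (225/8)*a^4)*b'^2
    + ((5031/1250) + (417279/10000)*a^1 + (85027/500)*a^2 + (30331/100)*a^3 + (325/4)*a^4)*b^1*b'^1
    + ((74313/25000) + (5084817/200000)*a^1 + (1055171/10000)*a^2 + (1744067/8000)*a^3 + (1219/32)*a^4)*b^2)*e'^4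
    + (((594/125) + (26673/500)*a^1 + (5399/25)*a^2 + (7253/20)*a^3 + (225/2)*a^4)*b'^2
    + ((10062/625) + (417279/2500)*a^1 + (85027/125)*a^2 + (30331/25)*a^3 + 325*a^4)*b^1*b'^1
    + ((74313/6250) + (5084817/50000)*a^1 + (1055171/2500)*a^2 + (1744067/2000)*a^3 + (1219/8)*a^4)*b^2)*e^1*e'^3
    + (((891/125) + (80019/1000)*a^1 + (16197/50)*a^2 + (21759/40)*a^3 + (675/4)*a^4)*b'^2
    + ((24201/1000) + (2004849/8000)*a^1 + (102217/100)*a^2 + (585699/320)*a^3 + (1967/4)*a^4 + (75/16)*a^5)*b^1*b'^1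
    + ((850959/50000) + (56393631/400000)*a^1 + (46946887/80000)*a^2 + (19960821/16000)*a^3 + (59303/320)*a^4 + (5/8)*a^5)*b^2)*e^2*e'^2
    + (((594/125) + (26673/500)*a^1 + (5399/25)*a^2 + (7253/20)*a^3 + (225/2)*a^4)*b'^2
    + ((40509/2500) + (3347781/20000)*a^1 + (170977/250)*a^2 + (987311/800)*a^3 + (667/2)*a^4 + (75/8)*a^5)*b^1*b'^1
    + ((51291/5000) + (3143019/40000)*a^1 + (2636283/8000)*a^2 + (1201657/1600)*a^3 + (10543/160)*a^4 + (5/4)*a^5)*b^2)*e^3*e'^1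
    + (((297/250) + (26673/2000)*a^1 + (5399/100)*a^2 + (7253/80)*a^3 + (225/8)*a^4)*b'^2
    + ((4077/1000) + (335733/8000)*a^1 + (1719/10)*a^2 + (100403/320)*a^3 + (171/2)*a^4 + (75/16)*a^5)*b^1*b'^1
    + ((34641/16000) + (14301/1024)*a^1 + (3866499/64000)*a^2 + (4178463/25600)*a^3 + (1335/512)*a^4 + (75/16)*a^5)*b^2)*e^4

theorem Pbx1_0_nn (a b b' e e' : ℝ) (ha : 0 ≤ a) (hb : 0 ≤ b) (hb' : 0 ≤ b') (he : 0 ≤ e) (he' : 0 ≤ e') :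
    0 ≤ Pbx1_0 a b b' e e' := by
  unfold Pbx1_0
  positivity

theorem bx1_0 (x p u : ℝ) (h1 : 0 ≤ x)
    (h3 : 0 ≤ p) (h4 : p ≤ 1) (h5 : 0 ≤ u) (h6 : u ≤ (1/2)) :
    0 ≤ scN (1/2) (13/10) (43/100) 5 (77/100) (1/100) x p (p*u^2)
      (2*(p*u^2) + 4*(13/10)*(p*(p*u^2))) := by
  have key : scN (1/2) (13/10) (43/100) 5 (77/100) (1/100) x p (p*u^2)
      (2*(p*u^2) + 4*(13/10)*(p*(p*u^2))) * (1/16)
      = Pbx1_0 (x - 0) (p - 0) (1 - p) (u - 0) ((1/2) - u) := by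
    unfold scN Pbx1_0
    ring
  have h := Pbx1_0_nn (x - 0) (p - 0) (1 - p) (u - 0) ((1/2) - u)
    (sub_nonneg.2 h1) (sub_nonneg.2 h3) (sub_nonneg.2 h4) (sub_nonneg.2 h5) (sub_nonneg.2 h6)
  rw [← key] at h
  exact nonneg_of_mul_nonneg_left h (by norm_num)

end Helper35.HC
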