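import Mathlib
import Pool.Agent.Helper35.HC.Sc

set_option autoImplicit false
set_option maxHeartbeats 4000000

namespace Helper35.HC

/-- Bernstein form -/
noncomputable def Pbx1_1 (a b b' e e' : ℝ) : ℝ :=
    (((751903576281/262144000) + (26420741139/6553600)*a^1 + (8642616089/4096000)*a^2 + (207908197/409600)*a^3 + (481743/8192)*a^4 + (225/64)*a^5)*b'^2
    + ((36403239483/6553600) + (31725961527/4096000)*a^1 + (2057284233/512000)*a^2 + (49465859/51200)*a^3 + (120393/1024)*a^4 + (525/64)*a^5)*b^1*b'^1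
    + ((41545828233/16384000) + (7135701651/2048000)*a^1 + (454475061/256000)*a^2 + (10854213/25600)*a^3 + (28335/512)*a^4 + (75/16)*a^5)*b^2)*e'^4
    + (((1303341686829/163840000) + (110754116733/10240000)*a^1 + (694167307/128000)*a^2 + (64700189/51200)*a^3 + (825231/5120)*a^4 + (1785/128)*a^5)*b'^2
    + ((275228654571/20480000) + (11404981731/640000)*a^1 + (277585777/32000)*a^2 + (2588759/1280)*a^3 + (193697/640)*a^4 + (545/16)*a^5)*b^1*b'^1
    + ((48036372813/10240000) + (3729692031/640000)*a^1 + (650133/250)*a^2 + (1929229/3200)*a^3 + (41439/320)*a^4 + (165/8)*a^5)*b^2)*e^1*e'^3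
    + (((8095803473511/819200000) + (2955745940823/204800000)*a^1 + (42638171007/5120000)*a^2 + (652591779/256000)*a^3 + (2439123/5120)*a^4 + (12135/256)*a^5)*b'^2
    + ((2992502352879/204800000) + (1112642386947/51200000)*a^1 + (17021999873/1280000)*a^2 + (298466481/64000)*a^3 + (1346327/1280)*a^4 + (7615/64)*a^5)*b^1*b'^1
    + ((84107330307/25600000) + (33668230401/6400000)*a^1 + (315186817/80000)*a^2 + (478839/250)*a^3 + (91881/160)*a^4 + (595/8)*a^5)*b^2)*e^2*e'^2
    + (((1742398646157/204800000) + (753489999951/51200000)*a^1 + (13422773059/1280000)*a^2 + (254100493/64000)*a^3 + (211137/256)*a^4 + (4875/64)*a^5)*b'^2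
    + ((1449047747511/102400000) + (685567777323/25600000)*a^1 + (13487189957/640000)*a^2 + (281957789/32000)*a^3 + (254299/128)*a^4 + (6175/32)*a^5)*b^1*b'^1
    + ((119232081891/25600000) + (69370997163/6400000)*a^1 + (1620998817/160000)*a^2 + (38741509/8000)*a^3 + (38247/32)*a^4 + (975/8)*a^5)*b^2)*e^3*e'^1
    + (((818282607129/204800000) + (389732213247/51200000)*a^1 + (7535445013/1280000)*a^2 + (149464051/64000)*a^3 + (615429/1280)*a^4 + (2655/64)*a^5)*b'^2
    + ((418791206691/51200000) + (212126066763/12800000)*a^1 + (4332389577/320000)*a^2 + (90011629/16000)*a^3 + (384051/320)*a^4 + (1695/16)*a^5)*b^1*b'^1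
    + ((25801881183/6400000) + (14220719019/1600000)*a^1 + (310185801/40000)*a^2 + (6774777/2000)*a^3 + (29943/40)*a^4 + (135/2)*a^5)*b^2)*e^4

theorem Pbx1_1_nn (a b b' e e' : ℝ) (ha : 0 ≤ a) (hb : 0 ≤ b) (hb' : 0 ≤ b') (he : 0 ≤ e) (he' : 0 ≤ e') :
    0 ≤ Pbx1_1 a b b' e e' := by
  unfold Pbx1_1
  positivity

theorem bx1_1 (x p u : ℝ) (h1 : (9/4) ≤ x)
    (h3 : (3/4) ≤ p) (h4 : p ≤ 1) (h5 : (1/2) ≤ u) (h6 : u ≤ 1) :
    0 ≤ scN (1/2) (13/10) (43/100) 5 (77/100) (1/100) x p (p*u^2)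
      (3*(p*u) - p + 4*(13/10)*(p*(p*u^2))) := by
  have key : scN (1/2) (13/10) (43/100) 5 (77/100) (1/100) x p (p*u^2)
      (3*(p*u) - p + 4*(13/10)*(p*(p*u^2))) * (1/256)
      = Pbx1_1 (x - (9/4)) (p - (3/4)) (1 - p) (u - (1/2)) (1 - u) := by
    unfold scN Pbx1_1
    ring
  have h := Pbx1_1_nn (x - (9/4)) (p - (3/4)) (1 - p) (u - (1/2)) (1 - u)
    (sub_nonneg.2 h1) (sub_nonneg.2 h3) (sub_nonneg.2 h4) (sub_nonneg.2 h5) (sub_nonneg.2 h6)
  rw [← key] at h
  exact nonneg_of_mul_nonneg_left h (by norm_num)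

end Helper35.HC
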