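import Mathlib
import Pool.Agent.Helper35.HC.Sc

set_option autoImplicit false
set_option maxHeartbeats 4000000

namespace Helper35.HC

/-- Bernstein form -/
noncomputable def Pbx1_10 (a b b' e e' : ℝ) : ℝ :=
    (((851540593/65536000) + (668265839/8192000)*a^1 + (193814621/1024000)*a^2 + (17657213/102400)*a^3 + (65511/2048)*a^4 + (75/32)*a^5)*b'^2
    + ((1745262203/65536000) + (273836509/1638400)*a^1 + (400942883/1024000)*a^2 + (36593679/102400)*a^3 + (120957/2048)*a^4 + (375/64)*a^5)*b^1*b'^1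
    + ((685050261/52428800) + (2684755967/32768000)*a^1 + (797040269/4096000)*a^2 + (72810997/409600)*a^3 + (193743/8192)*a^4 + (225/64)*a^5)*b^2)*e'^4
    + (((1851193749/40960000) + (724826369/2560000)*a^1 + (10551651/16000)*a^2 + (1517201/2560)*a^3 + (110199/1280)*a^4 + (265/32)*a^5)*b'^2
    + ((3590546999/40960000) + (1404769809/2560000)*a^1 + (8298949/6400)*a^2 + (14905639/12800)*a^3 + (159837/1280)*a^4 + (695/32)*a^5)*b^1*b'^1
    + ((6426396813/163840000) + (2510248093/10240000)*a^1 + (296887/500)*a^2 + (27241709/51200)*a^3 + (111231/5120)*a^4 + (1785/128)*a^5)*b^2)*e^1*e'^3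
    + (((12186476633/204800000) + (19198966457/51200000)*a^1 + (1140576213/1280000)*a^2 + (52234801/64000)*a^3 + (148517/1280)*a^4 + (1665/64)*a^5)*b'^2
    + ((2740543323/25600000) + (8655038309/12800000)*a^1 + (1058119687/640000)*a^2 + (48903449/32000)*a^3 + (47199/320)*a^4 + (565/8)*a^5)*b^1*b'^1
    + ((33446729007/819200000) + (53082218103/204800000)*a^1 + (3450109527/5120000)*a^2 + (162342579/256000)*a^3 + (12123/5120)*a^4 + (12135/256)*a^5)*b^2)*e^2*e'^2
    + (((456028659/12800000) + (1466715197/6400000)*a^1 + (11395881/20000)*a^2 + (4480861/8000)*a^3 + (1833/16)*a^4 + (325/8)*a^5)*b'^2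
    + ((5973864011/102400000) + (9769928019/25600000)*a^1 + (646172521/640000)*a^2 + (33293197/32000)*a^3 + (24975/128)*a^4 + (3575/32)*a^5)*b^1*b'^1
    + ((3434383509/204800000) + (5934243311/51200000)*a^1 + (467153899/1280000)*a^2 + (26826493/64000)*a^3 + (16137/256)*a^4 + (4875/64)*a^5)*b^2)*e^3*e'^1
    + (((429168707/51200000) + (721075553/12800000)*a^1 + (48375187/320000)*a^2 + (2690609/16000)*a^3 + (17871/320)*a^4 + (345/16)*a^5)*b'^2
    + ((319692203/25600000) + (284171981/3200000)*a^1 + (21459199/80000)*a^2 + (2650611/8000)*a^3 + (19689/160)*a^4 + 60*a^5)*b^1*b'^1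
    + ((456243873/204800000) + (1086780767/51200000)*a^1 + (122054893/1280000)*a^2 + (9492451/64000)*a^3 + (84429/1280)*a^4 + (2655/64)*a^5)*b^2)*e^4

theorem Pbx1_10_nn (a b b' e e' : ℝ) (ha : 0 ≤ a) (hb : 0 ≤ b) (hb' : 0 ≤ b') (he : 0 ≤ e) (he' : 0 ≤ e') :
    0 ≤ Pbx1_10 a b b' e e' := by
  unfold Pbx1_10
  positivity

theorem bx1_10 (x p u : ℝ) (h1 : (1/4) ≤ x)
    (h3 : (1/2) ≤ p) (h4 : p ≤ (3/4)) (h5 : (1/2) ≤ u) (h6 : u ≤ 1) :
    0 ≤ scN (1/2) (13/10) (43/100) 5 (77/100) (1/100) x p (p*u^2)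
      (3*(p*u) - p + 4*(13/10)*(p*(p*u^2))) := by
  have key : scN (1/2) (13/10) (43/100) 5 (77/100) (1/100) x p (p*u^2)
      (3*(p*u) - p + 4*(13/10)*(p*(p*u^2))) * (1/256)
      = Pbx1_10 (x - (1/4)) (p - (1/2)) ((3/4) - p) (u - (1/2)) (1 - u) := by
    unfold scN Pbx1_10
    ring
  have h := Pbx1_10_nn (x - (1/4)) (p - (1/2)) ((3/4) - p) (u - (1/2)) (1 - u)
    (sub_nonneg.2 h1) (sub_nonneg.2 h3) (sub_nonneg.2 h4) (sub_nonneg.2 h5) (sub_nonneg.2 h6)
  rw [← key] at h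
  exact nonneg_of_mul_nonneg_left h (by norm_num)

end Helper35.HC
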