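import Mathlib
import Pool.Agent.Helper35.HC.Sc

set_option autoImplicit false
set_option maxHeartbeats 4000000

namespace Helper35.HC

/-- Bernstein form -/
noncomputable def Pbx1_16 (a b b' e e' : ℝ) : ℝ :=
    (((297/250) + (26673/2000)*a^1 + (5399/100)*a^2 + (7253/80)*a^3 + (225/8)*a^4)*b'^2
    + ((6453/2000) + (549117/16000)*a^1 + (6997/50)*a^2 + (158427/640)*a^3 + (567/8)*a^4 + (75/32)*a^5)*b^1*b'^1
    + ((118881/64000) + (354657/20480)*a^1 + (18323459/256000)*a^2 + (14531663/102400)*a^3 + (59511/2048)*a^4 + (75/32)*a^5)*b^2)*e'^4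
    + (((594/125) + (26673/500)*a^1 + (5399/25)*a^2 + (7253/20)*a^3 + (225/2)*a^4)*b'^2
    + ((62991/5000) + (5324319/40000)*a^1 + (4338603/8000)*a^2 + (385611/400)*a^3 + 259*a^4 + (25/4)*a^5)*b^1*b'^1
    + ((267867/40000) + (18976083/320000)*a^1 + (1967813/8000)*a^2 + (1310053/2560)*a^3 + (96949/1280)*a^4 + (265/32)*a^5)*b^2)*e^1*e'^3
    + (((891/125) + (80019/1000)*a^1 + (16197/50)*a^2 + (21759/40)*a^3 + (675/4)*a^4)*b'^2
    + ((188217/10000) + (15834753/80000)*a^1 + (3230159/4000)*a^2 + (4635663/3200)*a^3 + (3061/8)*a^4 + (475/32)*a^5)*b^1*b'^1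
    + ((28521/3125) + (15146037/200000)*a^1 + (101886237/320000)*a^2 + (5731197/8000)*a^3 + (26723/320)*a^4 + (1665/64)*a^5)*b^2)*e^2*e'^2
    + (((594/125) + (26673/500)*a^1 + (5399/25)*a^2 + (7253/20)*a^3 + (225/2)*a^4)*b'^2
    + ((31887/2500) + (2676483/20000)*a^1 + (4382907/8000)*a^2 + (1592601/1600)*a^3 + (1087/4)*a^4 + (325/16)*a^5)*b^1*b'^1
    + ((140049/25000) + (8586141/200000)*a^1 + (14906129/80000)*a^2 + (1883743/4000)*a^3 + (2041/32)*a^4 + (325/8)*a^5)*b^2)*e^3*e'^1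
    + (((297/250) + (26673/2000)*a^1 + (5399/100)*a^2 + (7253/80)*a^3 + (225/8)*a^4)*b'^2
    + ((4131/1250) + (346779/10000)*a^1 + (142709/1000)*a^2 + (210573/800)*a^3 + (309/4)*a^4 + (75/8)*a^5)*b^1*b'^1
    + ((32913/25000) + (1841817/200000)*a^1 + (106559/2500)*a^2 + (503171/4000)*a^3 + (4623/160)*a^4 + (345/16)*a^5)*b^2)*e^4

theorem Pbx1_16_nn (a b b' e e' : ℝ) (ha : 0 ≤ a) (hb : 0 ≤ b) (hb' : 0 ≤ b') (he : 0 ≤ e) (he' : 0 ≤ e') :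
    0 ≤ Pbx1_16 a b b' e e' := by
  unfold Pbx1_16
  positivity

theorem bx1_16 (x p u : ℝ) (h1 : 0 ≤ x)
    (h3 : 0 ≤ p) (h4 : p ≤ (1/2)) (h5 : (1/2) ≤ u) (h6 : u ≤ 1) :
    0 ≤ scN (1/2) (13/10) (43/100) 5 (77/100) (1/100) x p (p*u^2)
      (3*(p*u) - p + 4*(13/10)*(p*(p*u^2))) := by
  have key : scN (1/2) (13/10) (43/100) 5 (77/100) (1/100) x p (p*u^2)
      (3*(p*u) - p + 4*(13/10)*(p*(p*u^2))) * (1/64)
      = Pbx1_16 (x - 0) (p - 0) ((1/2) - p) (u - (1/2)) (1 - u) := by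
    unfold scN Pbx1_16
    ring
  have h := Pbx1_16_nn (x - 0) (p - 0) ((1/2) - p) (u - (1/2)) (1 - u)
    (sub_nonneg.2 h1) (sub_nonneg.2 h3) (sub_nonneg.2 h4) (sub_nonneg.2 h5) (sub_nonneg.2 h6)
  rw [← key] at h
  exact nonneg_of_mul_nonneg_left h (by norm_num)

end Helper35.HC
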