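import Mathlib
import Pool.Agent.Helper35.HC.Sc

set_option autoImplicit false
set_option maxHeartbeats 4000000

namespace Helper35.HC

/-- Bernstein form -/
noncomputable def Pbx2_0 (a b b' e e' : ℝ) : ℝ :=
    (((297/400) + (88141/10000)*a^1 + (185121/5000)*a^2 + (172719/2500)*a^3 + (1161/50)*a^4)*b'^2
    + ((3627/2000) + (975631/50000)*a^1 + (2087811/25000)*a^2 + (2140209/12500)*a^3 + (13311/250)*a^4)*b^1*b'^1
    + ((1251/1250) + (270503/31250)*a^1 + (606843/15625)*a^2 + (1516914/15625)*a^3 + (16092/625)*a^4)*b^2)*e'^4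
    + (((297/100) + (88141/2500)*a^1 + (185121/1250)*a^2 + (172719/625)*a^3 + (2322/25)*a^4)*b'^2
    + ((3627/500) + (975631/12500)*a^1 + (2087811/6250)*a^2 + (2140209/3125)*a^3 + (26622/125)*a^4)*b^1*b'^1
    + ((2502/625) + (541006/15625)*a^1 + (2427372/15625)*a^2 + (6067656/15625)*a^3 + (64368/625)*a^4)*b^2)*e^1*e'^3
    + (((891/200) + (264423/5000)*a^1 + (555363/2500)*a^2 + (518157/1250)*a^3 + (3483/25)*a^4)*b'^2
    + ((4329/400) + (2324049/20000)*a^1 + (9955727/20000)*a^2 + (10262043/10000)*a^3 + (318681/1000)*a^4 + (27/20)*a^5)*b^1*b'^1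
    + ((114849/20000) + (48146469/1000000)*a^1 + (217681483/1000000)*a^2 + (282017007/500000)*a^3 + (1427409/10000)*a^4 + (27/200)*a^5)*b^2)*e^2*e'^2
    + (((297/100) + (88141/2500)*a^1 + (185121/1250)*a^2 + (172719/625)*a^3 + (2322/25)*a^4)*b'^2
    + ((7137/1000) + (3815197/50000)*a^1 + (16373659/50000)*a^2 + (17066871/25000)*a^3 + (21141/100)*a^4 + (27/10)*a^5)*b^1*b'^1
    + ((6957/2000) + (2704417/100000)*a^1 + (2493187/20000)*a^2 + (17570403/50000)*a^3 + (397521/5000)*a^4 + (27/100)*a^5)*b^2)*e^3*e'^1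
    + (((297/400) + (88141/10000)*a^1 + (185121/5000)*a^2 + (172719/2500)*a^3 + (1161/50)*a^4)*b'^2
    + ((351/200) + (372787/20000)*a^1 + (1604483/20000)*a^2 + (1701207/10000)*a^3 + (52461/1000)*a^4 + (27/20)*a^5)*b^1*b'^1
    + ((2349/3200) + (769429/160000)*a^1 + (18700391/800000)*a^2 + (31683843/400000)*a^3 + (121581/8000)*a^4 + (27/32)*a^5)*b^2)*e^4

theorem Pbx2_0_nn (a b b' e e' : ℝ) (ha : 0 ≤ a) (hb : 0 ≤ b) (hb' : 0 ≤ b') (he : 0 ≤ e) (he' : 0 ≤ e') :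
    0 ≤ Pbx2_0 a b b' e e' := by
  unfold Pbx2_0
  positivity

theorem bx2_0 (x p u : ℝ) (h1 : 0 ≤ x)
    (h3 : 0 ≤ p) (h4 : p ≤ 1) (h5 : 0 ≤ u) (h6 : u ≤ (1/2)) :
    0 ≤ scN (1/4) (3/5) (9/25) 6 (39/100) (1/100) x p (p*u^2)
      (2*(p*u^2) + 4*(3/5)*(p*(p*u^2))) := by
  have key : scN (1/4) (3/5) (9/25) 6 (39/100) (1/100) x p (p*u^2)
      (2*(p*u^2) + 4*(3/5)*(p*(p*u^2))) * (1/16)
      = Pbx2_0 (x - 0) (p - 0) (1 - p) (u - 0) ((1/2) - u) := by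
    unfold scN Pbx2_0
    ring
  have h := Pbx2_0_nn (x - 0) (p - 0) (1 - p) (u - 0) ((1/2) - u)
    (sub_nonneg.2 h1) (sub_nonneg.2 h3) (sub_nonneg.2 h4) (sub_nonneg.2 h5) (sub_nonneg.2 h6)
  rw [← key] at h
  exact nonneg_of_mul_nonneg_left h (by norm_num)

end Helper35.HC
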