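import Mathlib
import Pool.Agent.Helper35.HC.Sc

set_option autoImplicit false
set_option maxHeartbeats 4000000

namespace Helper35.HC

/-- Bernstein form -/
noncomputable def Pbx2_1 (a b b' e e' : ℝ) : ℝ :=
    (((52076610973251/2097152000000) + (50413949101143/524288000000)*a^1 + (25486239798059/196608000000)*a^2 + (1078322517669/16384000000)*a^3 + (3048831747/327680000)*a^4 + (6649551/3276800)*a^5)*b'^2
    + ((20566340230977/262144000000) + (20937771156381/65536000000)*a^1 + (11712168839993/24576000000)*a^2 + (634168016823/2048000000)*a^3 + (3667119489/40960000)*a^4 + (6526917/409600)*a^5)*b^1*b'^1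
    + ((7530931084779/131072000000) + (7880198405727/32768000000)*a^1 + (4631433630611/12288000000)*a^2 + (275657578941/1024000000)*a^3 + (1856950443/20480000)*a^4 + (3202839/204800)*a^5)*b^2)*e'^4
    + (((1599551202501/13107200000) + (63141023673/131072000)*a^1 + (167485499449/245760000)*a^2 + (40648511379/102400000)*a^3 + (932881689/10240000)*a^4 + (1733949/102400)*a^5)*b'^2
    + ((607738085919/1638400000) + (124742541207/81920000)*a^1 + (356071885943/153600000)*a^2 + (20190176553/12800000)*a^3 + (633555963/1280000)*a^4 + (1102743/12800)*a^5)*b^1*b'^1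
    + ((217589005197/819200000) + (45699518661/40960000)*a^1 + (135711894917/76800000)*a^2 + (8260929291/6400000)*a^3 + (287587521/640000)*a^4 + (491301/6400)*a^5)*b^2)*e^1*e'^3
    + (((7201359706023/32768000000) + (7206303148299/8192000000)*a^1 + (1316977859269/1024000000)*a^2 + (207893839617/256000000)*a^3 + (1147149351/5120000)*a^4 + (2032803/51200)*a^5)*b'^2
    + ((2656898663031/4096000000) + (2744155278903/1024000000)*a^1 + (530405304193/128000000)*a^2 + (93274228449/32000000)*a^3 + (617219487/640000)*a^4 + (1059831/6400)*a^5)*b^1*b'^1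
    + ((934207919307/2048000000) + (984039709191/512000000)*a^1 + (196495334521/64000000)*a^2 + (36523426653/16000000)*a^3 + (260671419/320000)*a^4 + (442287/3200)*a^5)*b^2)*e^2*e'^2
    + (((70778083617/409600000) + (71581240413/102400000)*a^1 + (40195061881/38400000)*a^2 + (2230592631/3200000)*a^3 + (67921317/320000)*a^4 + (117657/3200)*a^5)*b'^2
    + ((25520195619/51200000) + (26496628899/12800000)*a^1 + (15555265567/4800000)*a^2 + (935005461/400000)*a^3 + (32106519/40000)*a^4 + (54639/400)*a^5)*b^1*b'^1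
    + ((8841675753/25600000) + (9338474829/6400000)*a^1 + (5634625849/2400000)*a^2 + (113331/64)*a^3 + (12884733/20000)*a^4 + (21753/200)*a^5)*b^2)*e^3*e'^1
    + (((401884029/8000000) + (3279027771/16000000)*a^1 + (1875142813/6000000)*a^2 + (27016917/125000)*a^3 + (350037/5000)*a^4 + (1197/100)*a^5)*b'^2
    + ((1138143519/8000000) + (4747871043/8000000)*a^1 + (2815632109/3000000)*a^2 + (10788234/15625)*a^3 + (609291/2500)*a^4 + (2061/50)*a^5)*b^1*b'^1
    + ((389518173/4000000) + (103106421/250000)*a^1 + (125199041/187500)*a^2 + (15927747/31250)*a^3 + (117711/625)*a^4 + (792/25)*a^5)*b^2)*e^4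

theorem Pbx2_1_nn (a b b' e e' : ℝ) (ha : 0 ≤ a) (hb : 0 ≤ b) (hb' : 0 ≤ b') (he : 0 ≤ e) (he' : 0 ≤ e') :
    0 ≤ Pbx2_1 a b b' e e' := by
  unfold Pbx2_1
  positivity

theorem bx2_1 (x p u : ℝ) (h1 : (3/4) ≤ x)
    (h3 : (3/4) ≤ p) (h4 : p ≤ 1) (h5 : (7/8) ≤ u) (h6 : u ≤ 1) :
    0 ≤ scN (1/4) (3/5) (9/25) 6 (39/100) (1/100) x p (p*u^2)
      (4/3 + 8*(3/5)/3*(p*u)) := by
  have key : scN (1/4) (3/5) (9/25) 6 (39/100) (1/100) x p (p*u^2)
      (4/3 + 8*(3/5)/3*(p*u)) * (1/65536)
      = Pbx2_1 (x - (3/4)) (p - (3/4)) (1 - p) (u - (7/8)) (1 - u) := by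
    unfold scN Pbx2_1
    ring
  have h := Pbx2_1_nn (x - (3/4)) (p - (3/4)) (1 - p) (u - (7/8)) (1 - u)
    (sub_nonneg.2 h1) (sub_nonneg.2 h3) (sub_nonneg.2 h4) (sub_nonneg.2 h5) (sub_nonneg.2 h6)
  rw [← key] at h
  exact nonneg_of_mul_nonneg_left h (by norm_num)

end Helper35.HC
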