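import Mathlib
import Pool.Agent.Helper35.HC.Sc

set_option autoImplicit false
set_option maxHeartbeats 4000000

namespace Helper35.HC

/-- Bernstein form -/
noncomputable def Pbx2_2 (a b b' e e' : ℝ) : ℝ :=
    (((1091371249479/26214400000) + (992935189963/6553600000)*a^1 + (160685339397/819200000)*a^2 + (20506663809/204800000)*a^3 + (62011143/4096000)*a^4 + (12231/8192)*a^5)*b'^2
    + ((216026182893/3276800000) + (203592653401/819200000)*a^1 + (33751033879/102400000)*a^2 + (4293004203/25600000)*a^3 + (12233133/512000)*a^4 + (18657/5120)*a^5)*b^1*b'^1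
    + ((34527247311/1638400000) + (35420185267/409600000)*a^1 + (6187534493/51200000)*a^2 + (780814521/12800000)*a^3 + (77031/10240)*a^4 + (5643/2560)*a^5)*b^2)*e'^4
    + (((413182600167/2621440000) + (1899723549719/3276800000)*a^1 + (311029670649/409600000)*a^2 + (1614859821/4096000)*a^3 + (652588623/10240000)*a^4 + (774603/102400)*a^5)*b'^2
    + ((394016325657/1638400000) + (378995070869/409600000)*a^1 + (64081000859/51200000)*a^2 + (8362107423/12800000)*a^3 + (132129981/1280000)*a^4 + (237681/12800)*a^5)*b^1*b'^1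
    + ((56678189883/819200000) + (12323749987/40960000)*a^1 + (89946869/204800)*a^2 + (1483676397/6400000)*a^3 + (22181607/640000)*a^4 + (72387/6400)*a^5)*b^2)*e^1*e'^3
    + (((58756854054537/262144000000) + (54748918593861/65536000000)*a^1 + (9100111636971/8192000000)*a^2 + (1209738478383/2048000000)*a^3 + (4266638793/40960000)*a^4 + (5901741/409600)*a^5)*b'^2
    + ((10758096303219/32768000000) + (10622041786407/8192000000)*a^1 + (1843184571177/1024000000)*a^2 + (249510991221/256000000)*a^3 + (899330931/5120000)*a^4 + (1818207/51200)*a^5)*b^1*b'^1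
    + ((1349920715553/16384000000) + (1599220926909/4096000000)*a^1 + (310112509299/512000000)*a^2 + (43765069527/128000000)*a^3 + (165111777/2560000)*a^4 + (556389/25600)*a^5)*b^2)*e^2*e'^2
    + (((37223193651231/262144000000) + (35245292760643/65536000000)*a^1 + (5969408695053/8192000000)*a^2 + (818334298089/2048000000)*a^3 + (3190976991/40960000)*a^4 + (993951/81920)*a^5)*b'^2
    + ((6519398920437/32768000000) + (6652572442561/8192000000)*a^1 + (1192734474031/1024000000)*a^2 + (169309212003/256000000)*a^3 + (705199797/5120000)*a^4 + (61425/2048)*a^5)*b^1*b'^1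
    + ((681286109799/16384000000) + (919619930347/4096000000)*a^1 + (193519556837/512000000)*a^2 + (29839971681/128000000)*a^3 + (141999399/2560000)*a^4 + (94311/5120)*a^5)*b^2)*e^3*e'^1
    + (((70970235486531/2097152000000) + (68496433078103/524288000000)*a^1 + (11865480644793/65536000000)*a^2 + (1687966243749/16384000000)*a^3 + (7319422467/327680000)*a^4 + (12444111/3276800)*a^5)*b'^2
    + ((11851984590657/262144000000) + (12597539978141/65536000000)*a^1 + (2349671325971/8192000000)*a^2 + (352980453303/2048000000)*a^3 + (1697383809/40960000)*a^4 + (3854277/409600)*a^5)*b^1*b'^1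
    + ((957602476779/131072000000) + (1589075749727/32768000000)*a^1 + (371322559537/4096000000)*a^2 + (63554890941/1024000000)*a^3 + (371158443/20480000)*a^4 + (1186839/204800)*a^5)*b^2)*e^4

theorem Pbx2_2_nn (a b b' e e' : ℝ) (ha : 0 ≤ a) (hb : 0 ≤ b) (hb' : 0 ≤ b') (he : 0 ≤ e) (he' : 0 ≤ e') :
    0 ≤ Pbx2_2 a b b' e e' := by
  unfold Pbx2_2
  positivity

theorem bx2_2 (x p u : ℝ) (h1 : (3/4) ≤ x)
    (h3 : (3/4) ≤ p) (h4 : p ≤ 1) (h5 : (3/4) ≤ u) (h6 : u ≤ (7/8)) :
    0 ≤ scN (1/4) (3/5) (9/25) 6 (39/100) (1/100) x p (p*u^2)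
      (3*(p*u) - p + 4*(3/5)*(p*(p*u^2))) := by
  have key : scN (1/4) (3/5) (9/25) 6 (39/100) (1/100) x p (p*u^2)
      (3*(p*u) - p + 4*(3/5)*(p*(p*u^2))) * (1/65536)
      = Pbx2_2 (x - (3/4)) (p - (3/4)) (1 - p) (u - (3/4)) ((7/8) - u) := by
    unfold scN Pbx2_2
    ring
  have h := Pbx2_2_nn (x - (3/4)) (p - (3/4)) (1 - p) (u - (3/4)) ((7/8) - u)
    (sub_nonneg.2 h1) (sub_nonneg.2 h3) (sub_nonneg.2 h4) (sub_nonneg.2 h5) (sub_nonneg.2 h6)
  rw [← key] at h
  exact nonneg_of_mul_nonneg_left h (by norm_num)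

end Helper35.HC
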