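import Mathlib
import Pool.Agent.Helper35.HC.Sc

set_option autoImplicit false
set_option maxHeartbeats 4000000

namespace Helper35.HC

/-- Bernstein form -/
noncomputable def Pbx2_4 (a b b' e e' : ℝ) : ℝ :=
    (((1325593209/262144000) + (55613885747/1638400000)*a^1 + (17690949667/204800000)*a^2 + (4493471481/51200000)*a^3 + (18506961/1024000)*a^4 + (9099/10240)*a^5)*b'^2
    + ((11419186967/1310720000) + (97535588121/1638400000)*a^1 + (32326777321/204800000)*a^2 + (8464180203/51200000)*a^3 + (31584627/1024000)*a^4 + (23841/10240)*a^5)*b^1*b'^1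
    + ((17291664197/5242880000) + (153061241803/6553600000)*a^1 + (54719824443/819200000)*a^2 + (15069987009/204800000)*a^3 + (46722393/4096000)*a^4 + (12231/8192)*a^5)*b^2)*e'^4
    + (((7815617169/409600000) + (13211282579/102400000)*a^1 + (852104807/2560000)*a^2 + (43919649/128000)*a^3 + (22975893/320000)*a^4 + (16983/3200)*a^5)*b'^2
    + ((12942947047/409600000) + (22412757237/102400000)*a^1 + (7615180549/12800000)*a^2 + (2041157439/3200000)*a^3 + (38898819/320000)*a^4 + (45009/3200)*a^5)*b^1*b'^1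
    + ((17852423761/1638400000) + (32668171411/409600000)*a^1 + (12340793859/51200000)*a^2 + (3546560889/12800000)*a^3 + (56331477/1280000)*a^4 + (117207/12800)*a^5)*b^2)*e^1*e'^3
    + (((11080895481/409600000) + (18912863787/102400000)*a^1 + (31029304839/64000000)*a^2 + (8162302149/16000000)*a^3 + (7177977/64000)*a^4 + (38799/3200)*a^5)*b'^2
    + ((17543974803/409600000) + (30960277041/102400000)*a^1 + (54310012197/64000000)*a^2 + (15041724327/16000000)*a^3 + (12357603/64000)*a^4 + (103437/3200)*a^5)*b^1*b'^1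
    + ((21338733489/1638400000) + (41185644963/409600000)*a^1 + (84054531231/256000000)*a^2 + (25651156221/64000000)*a^3 + (3692061/51200)*a^4 + (271431/12800)*a^5)*b^2)*e^2*e'^2
    + (((87487791/5120000) + (756059627/6400000)*a^1 + (1267189391/4000000)*a^2 + (342390411/1000000)*a^3 + (1631907/20000)*a^4 + (2403/200)*a^5)*b'^2
    + ((526523549/20480000) + (4767746919/25600000)*a^1 + (8708142467/16000000)*a^2 + (2516581557/4000000)*a^3 + (11683629/80000)*a^4 + (25731/800)*a^5)*b^1*b'^1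
    + ((268172809/40960000) + (2830813871/51200000)*a^1 + (6436535163/32000000)*a^2 + (2125178073/8000000)*a^3 + (9391761/160000)*a^4 + (33939/1600)*a^5)*b^2)*e^3*e'^1
    + (((3246939/800000) + (5702419/200000)*a^1 + (9806263/125000)*a^2 + (2738763/31250)*a^3 + (14499/625)*a^4 + (108/25)*a^5)*b'^2
    + ((73772777/12800000) + (138371697/3200000)*a^1 + (265593469/2000000)*a^2 + (80843769/500000)*a^3 + (437697/10000)*a^4 + (1161/100)*a^5)*b^1*b'^1
    + ((28692223/25600000) + (71311123/6400000)*a^1 + (188276871/4000000)*a^2 + (68417271/1000000)*a^3 + (385263/20000)*a^4 + (1539/200)*a^5)*b^2)*e^4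

theorem Pbx2_4_nn (a b b' e e' : ℝ) (ha : 0 ≤ a) (hb : 0 ≤ b) (hb' : 0 ≤ b') (he : 0 ≤ e) (he' : 0 ≤ e') :
    0 ≤ Pbx2_4 a b b' e e' := by
  unfold Pbx2_4
  positivity

theorem bx2_4 (x p u : ℝ) (h1 : (1/4) ≤ x)
    (h3 : (1/2) ≤ p) (h4 : p ≤ (3/4)) (h5 : (3/4) ≤ u) (h6 : u ≤ 1) :
    0 ≤ scN (1/4) (3/5) (9/25) 6 (39/100) (1/100) x p (p*u^2)
      (3*(p*u) - p + 4*(3/5)*(p*(p*u^2))) := by
  have key : scN (1/4) (3/5) (9/25) 6 (39/100) (1/100) x p (p*u^2)
      (3*(p*u) - p + 4*(3/5)*(p*(p*u^2))) * (1/4096)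
      = Pbx2_4 (x - (1/4)) (p - (1/2)) ((3/4) - p) (u - (3/4)) (1 - u) := by
    unfold scN Pbx2_4
    ring
  have h := Pbx2_4_nn (x - (1/4)) (p - (1/2)) ((3/4) - p) (u - (3/4)) (1 - u)
    (sub_nonneg.2 h1) (sub_nonneg.2 h3) (sub_nonneg.2 h4) (sub_nonneg.2 h5) (sub_nonneg.2 h6)
  rw [← key] at h
  exact nonneg_of_mul_nonneg_left h (by norm_num)

end Helper35.HC
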