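import Mathlib
import Pool.Agent.Helper35.HC.Sc

set_option autoImplicit false
set_option maxHeartbeats 4000000

namespace Helper35.HC

/-- Bernstein form -/
noncomputable def Pbx2_5 (a b b' e e' : ℝ) : ℝ :=
    (((520572201/81920000) + (4300810727/102400000)*a^1 + (1324350487/12800000)*a^2 + (328534101/3200000)*a^3 + (1497933/64000)*a^4 + (351/640)*a^5)*b'^2
    + ((242518357/20480000) + (2029873307/25600000)*a^1 + (647881227/3200000)*a^2 + (165317841/800000)*a^3 + (27729/640)*a^4 + (243/160)*a^5)*b^1*b'^1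
    + ((96155713/20480000) + (827259087/25600000)*a^1 + (283563647/3200000)*a^2 + (75947661/800000)*a^3 + (260037/16000)*a^4 + (27/32)*a^5)*b^2)*e'^4
    + (((4908406533/204800000) + (8123440831/51200000)*a^1 + (2512024367/6400000)*a^2 + (622620333/1600000)*a^3 + (13403961/160000)*a^4 + (1971/1600)*a^5)*b'^2
    + ((544070017/12800000) + (457541507/1600000)*a^1 + (147776097/200000)*a^2 + (75584043/100000)*a^3 + (1416879/10000)*a^4 + (81/25)*a^5)*b^1*b'^1
    + ((761065603/51200000) + (1333869681/12800000)*a^1 + (95339309/320000)*a^2 + (129744171/400000)*a^3 + (1646271/40000)*a^4 + (621/400)*a^5)*b^2)*e^1*e'^3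
    + (((27793875609/819200000) + (46131993867/204800000)*a^1 + (71791412583/128000000)*a^2 + (17847203013/32000000)*a^3 + (73673469/640000)*a^4 + (10287/6400)*a^5)*b'^2
    + ((11633256969/204800000) + (19721118867/51200000)*a^1 + (32409719343/32000000)*a^2 + (8364751173/8000000)*a^3 + (28443069/160000)*a^4 + (7047/1600)*a^5)*b^1*b'^1
    + ((3374110329/204800000) + (6130122267/51200000)*a^1 + (11757126903/32000000)*a^2 + (3313064133/8000000)*a^3 + (5503869/160000)*a^4 + (3807/1600)*a^5)*b^2)*e^2*e'^2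
    + (((17508595887/819200000) + (29191320589/204800000)*a^1 + (9169901597/25600000)*a^2 + (2297489031/6400000)*a^3 + (46583019/640000)*a^4 + (11529/6400)*a^5)*b'^2
    + ((6850722427/204800000) + (11759376529/51200000)*a^1 + (3963257313/6400000)*a^2 + (1042188147/1600000)*a^3 + (16771239/160000)*a^4 + (8829/1600)*a^5)*b^1*b'^1
    + ((1460496967/204800000) + (2874018069/51200000)*a^1 + (1253826469/6400000)*a^2 + (377655903/1600000)*a^3 + (1820259/160000)*a^4 + (6129/1600)*a^5)*b^2)*e^3*e'^1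
    + (((1325593209/262144000) + (55613885747/1638400000)*a^1 + (17690949667/204800000)*a^2 + (4493471481/51200000)*a^3 + (18506961/1024000)*a^4 + (9099/10240)*a^5)*b'^2
    + ((2395610461/327680000) + (20960851187/409600000)*a^1 + (7317913827/51200000)*a^2 + (1985354361/12800000)*a^3 + (6538833/256000)*a^4 + (7371/2560)*a^5)*b^1*b'^1
    + ((270314077/327680000) + (3400987827/409600000)*a^1 + (1939304867/51200000)*a^2 + (658774521/12800000)*a^3 + (20601/10240)*a^4 + (5643/2560)*a^5)*b^2)*e^4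

theorem Pbx2_5_nn (a b b' e e' : ℝ) (ha : 0 ≤ a) (hb : 0 ≤ b) (hb' : 0 ≤ b') (he : 0 ≤ e) (he' : 0 ≤ e') :
    0 ≤ Pbx2_5 a b b' e e' := by
  unfold Pbx2_5
  positivity

theorem bx2_5 (x p u : ℝ) (h1 : (1/4) ≤ x)
    (h3 : (1/2) ≤ p) (h4 : p ≤ 1) (h5 : (1/2) ≤ u) (h6 : u ≤ (3/4)) :
    0 ≤ scN (1/4) (3/5) (9/25) 6 (39/100) (1/100) x p (p*u^2)
      (3*(p*u) - p + 4*(3/5)*(p*(p*u^2))) := by
  have key : scN (1/4) (3/5) (9/25) 6 (39/100) (1/100) x p (p*u^2)
      (3*(p*u) - p + 4*(3/5)*(p*(p*u^2))) * (1/1024)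
      = Pbx2_5 (x - (1/4)) (p - (1/2)) (1 - p) (u - (1/2)) ((3/4) - u) := by
    unfold scN Pbx2_5
    ring
  have h := Pbx2_5_nn (x - (1/4)) (p - (1/2)) (1 - p) (u - (1/2)) ((3/4) - u)
    (sub_nonneg.2 h1) (sub_nonneg.2 h3) (sub_nonneg.2 h4) (sub_nonneg.2 h5) (sub_nonneg.2 h6)
  rw [← key] at h
  exact nonneg_of_mul_nonneg_left h (by norm_num)

end Helper35.HC
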