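import Mathlib
import Pool.Agent.Helper35.HC.Sc

set_option autoImplicit false
set_option maxHeartbeats 4000000

namespace Helper35.HC

/-- Bernstein form -/
noncomputable def Pbx2_6 (a a' b b' e e' : ℝ) : ℝ :=
    (((184881/819200)*a'^5 + (151109201/163840000)*a^1*a'^4 + (13062122617/9830400000)*a^2*a'^3 + (7731583601/6553600000)*a^3*a'^2 + (11388487481/13107200000)*a^4*a'^1 + (4964705551/15728640000)*a^5)*b'^2
    + ((58179/102400)*a'^5 + (50677259/20480000)*a^1*a'^4 + (5155614163/1228800000)*a^2*a'^3 + (3858015419/819200000)*a^3*a'^2 + (6264141779/1638400000)*a^4*a'^1 + (2751368101/1966080000)*a^5)*b^1*b'^1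
    + ((18201/51200)*a'^5 + (16705961/10240000)*a^1*a'^4 + (1895897329/614400000)*a^2*a'^3 + (1590020777/409600000)*a^3*a'^2 + (2674367537/819200000)*a^4*a'^1 + (47011759/39321600)*a^5)*b^2)*e'^4
    + (((276657/256000)*a'^5 + (259030717/51200000)*a^1*a'^4 + (5941991017/614400000)*a^2*a'^3 + (4863085937/409600000)*a^3*a'^2 + (7724681273/819200000)*a^4*a'^1 + (15926567723/4915200000)*a^5)*b'^2
    + ((21759/8000)*a'^5 + (85362541/6400000)*a^1*a'^4 + (2128834291/76800000)*a^2*a'^3 + (1884383987/51200000)*a^3*a'^2 + (3098366843/102400000)*a^4*a'^1 + (6496033181/614400000)*a^5)*b^1*b'^1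
    + ((27231/16000)*a'^5 + (27765961/3200000)*a^1*a'^4 + (736543681/38400000)*a^2*a'^3 + (137036389/5120000)*a^3*a'^2 + (229639021/10240000)*a^4*a'^1 + (2426923307/307200000)*a^5)*b^2)*e^1*e'^3
    + (((2483451/1280000)*a'^5 + (2574768081/256000000)*a^1*a'^4 + (22912335763/1024000000)*a^2*a'^3 + (62932270713/2048000000)*a^3*a'^2 + (20382625101/819200000)*a^4*a'^1 + (13795513789/1638400000)*a^5)*b'^2
    + ((1560339/320000)*a'^5 + (418525821/16000000)*a^1*a'^4 + (7831018321/128000000)*a^2*a'^3 + (22378459911/256000000)*a^3*a'^2 + (7392425451/102400000)*a^4*a'^1 + (5071224613/204800000)*a^5)*b^1*b'^1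
    + ((121887/40000)*a'^5 + (269240019/16000000)*a^1*a'^4 + (2618718907/64000000)*a^2*a'^3 + (7696015017/128000000)*a^3*a'^2 + (514984041/10240000)*a^4*a'^1 + (1780908121/102400000)*a^5)*b^2)*e^2*e'^2
    + (((246273/160000)*a'^5 + (275574763/32000000)*a^1*a'^4 + (8066447347/384000000)*a^2*a'^3 + (7807498259/256000000)*a^3*a'^2 + (2551432111/102400000)*a^4*a'^1 + (1029391769/122880000)*a^5)*b'^2
    + ((154407/40000)*a'^5 + (44318423/2000000)*a^1*a'^4 + (2681421499/48000000)*a^2*a'^3 + (2659095503/32000000)*a^3*a'^2 + (880853587/12800000)*a^4*a'^1 + (359264867/15360000)*a^5)*b^1*b'^1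
    + ((3009/1250)*a'^5 + (28246057/2000000)*a^1*a'^4 + (877306183/24000000)*a^2*a'^3 + (886023551/16000000)*a^3*a'^2 + (296357659/6400000)*a^4*a'^1 + (121779377/7680000)*a^5)*b^2)*e^3*e'^1
    + (((36309/80000)*a'^5 + (21517177/8000000)*a^1*a'^4 + (334545749/48000000)*a^2*a'^3 + (334637443/32000000)*a^3*a'^2 + (109992083/12800000)*a^4*a'^1 + (55321331/19200000)*a^5)*b'^2
    + ((45417/40000)*a'^5 + (27445501/4000000)*a^1*a'^4 + (436716497/24000000)*a^2*a'^3 + (444199039/16000000)*a^3*a'^2 + (5901287/256000)*a^4*a'^1 + (74882753/9600000)*a^5)*b^1*b'^1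
    + ((3531/5000)*a'^5 + (2169343/500000)*a^1*a'^4 + (35175701/3000000)*a^2*a'^3 + (36251017/2000000)*a^3*a'^2 + (12136553/800000)*a^4*a'^1 + (12405283/2400000)*a^5)*b^2)*e^4

theorem Pbx2_6_nn (a a' b b' e e' : ℝ) (ha : 0 ≤ a) (ha' : 0 ≤ a') (hb : 0 ≤ b) (hb' : 0 ≤ b') (he : 0 ≤ e) (he' : 0 ≤ e') :
    0 ≤ Pbx2_6 a a' b b' e e' := by
  unfold Pbx2_6
  positivity

theorem bx2_6 (x p u : ℝ) (h1 : 0 ≤ x) (h2 : x ≤ (1/4))
    (h3 : (3/4) ≤ p) (h4 : p ≤ 1) (h5 : (3/4) ≤ u) (h6 : u ≤ 1) :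
    0 ≤ scN (1/4) (3/5) (9/25) 6 (39/100) (1/100) x p (p*u^2)
      (4/3 + 8*(3/5)/3*(p*u)) := by
  have key : scN (1/4) (3/5) (9/25) 6 (39/100) (1/100) x p (p*u^2)
      (4/3 + 8*(3/5)/3*(p*u)) * (1/4194304)
      = Pbx2_6 (x - 0) ((1/4) - x) (p - (3/4)) (1 - p) (u - (3/4)) (1 - u) := by
    unfold scN Pbx2_6
    ring
  have h := Pbx2_6_nn (x - 0) ((1/4) - x) (p - (3/4)) (1 - p) (u - (3/4)) (1 - u)
    (sub_nonneg.2 h1) (sub_nonneg.2 h2) (sub_nonneg.2 h3) (sub_nonneg.2 h4) (sub_nonneg.2 h5) (sub_nonneg.2 h6)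
  rw [← key] at h
  exact nonneg_of_mul_nonneg_left h (by norm_num)

end Helper35.HC
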