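import Mathlib
import Pool.Agent.Helper35.HC.Sc

set_option autoImplicit false
set_option maxHeartbeats 4000000

namespace Helper35.HC

/-- Bernstein form -/
noncomputable def Pbx2_9 (a b b' e e' : ℝ) : ℝ :=
    (((297/400) + (88141/10000)*a^1 + (185121/5000)*a^2 + (172719/2500)*a^3 + (1161/50)*a^4)*b'^2
    + ((81/50) + (725351/40000)*a^1 + (3085451/40000)*a^2 + (3082959/20000)*a^3 + (98901/2000)*a^4 + (27/40)*a^5)*b^1*b'^1
    + ((10341/12800) + (5161981/640000)*a^1 + (112499071/3200000)*a^2 + (127367163/1600000)*a^3 + (727029/32000)*a^4 + (351/640)*a^5)*b^2)*e'^4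
    + (((297/100) + (88141/2500)*a^1 + (185121/1250)*a^2 + (172719/625)*a^3 + (2322/25)*a^4)*b'^2
    + ((50247/8000) + (6984683/100000)*a^1 + (59437957/200000)*a^2 + (60011613/100000)*a^3 + (369603/2000)*a^4 + (27/40)*a^5)*b^1*b'^1
    + ((23409/8000) + (5611727/200000)*a^1 + (3078083/25000)*a^2 + (1836549/6250)*a^3 + (91989/1250)*a^4 + (27/100)*a^5)*b^2)*e^1*e'^3
    + (((891/200) + (264423/5000)*a^1 + (555363/2500)*a^2 + (518157/1250)*a^3 + (3483/25)*a^4)*b'^2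
    + ((4617/500) + (20423241/200000)*a^1 + (87034917/200000)*a^2 + (89029233/100000)*a^3 + (107811/400)*a^4 + (81/40)*a^5)*b^1*b'^1
    + ((318789/80000) + (145383609/4000000)*a^1 + (646672983/4000000)*a^2 + (830578347/2000000)*a^3 + (3813237/40000)*a^4 + (1863/800)*a^5)*b^2)*e^2*e'^2
    + (((297/100) + (88141/2500)*a^1 + (185121/1250)*a^2 + (172719/625)*a^3 + (2322/25)*a^4)*b'^2
    + ((48843/8000) + (3361351/50000)*a^1 + (57464983/200000)*a^2 + (59682807/100000)*a^3 + (72981/400)*a^4 + (189/40)*a^5)*b^1*b'^1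
    + ((96741/40000) + (20721223/1000000)*a^1 + (11809267/125000)*a^2 + (33505101/125000)*a^3 + (154899/2500)*a^4 + (27/4)*a^5)*b^2)*e^3*e'^1
    + (((297/400) + (88141/10000)*a^1 + (185121/5000)*a^2 + (172719/2500)*a^3 + (1161/50)*a^4)*b'^2
    + ((6129/4000) + (1682387/100000)*a^1 + (225637/3125)*a^2 + (1906299/12500)*a^3 + (12069/250)*a^4 + (27/10)*a^5)*b^1*b'^1
    + ((1377/2500) + (272131/62500)*a^1 + (324128/15625)*a^2 + (1049094/15625)*a^3 + (11124/625)*a^4 + (108/25)*a^5)*b^2)*e^4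

theorem Pbx2_9_nn (a b b' e e' : ℝ) (ha : 0 ≤ a) (hb : 0 ≤ b) (hb' : 0 ≤ b') (he : 0 ≤ e) (he' : 0 ≤ e') :
    0 ≤ Pbx2_9 a b b' e e' := by
  unfold Pbx2_9
  positivity

theorem bx2_9 (x p u : ℝ) (h1 : 0 ≤ x)
    (h3 : 0 ≤ p) (h4 : p ≤ (1/2)) (h5 : (1/2) ≤ u) (h6 : u ≤ 1) :
    0 ≤ scN (1/4) (3/5) (9/25) 6 (39/100) (1/100) x p (p*u^2)
      (3*(p*u) - p + 4*(3/5)*(p*(p*u^2))) := by
  have key : scN (1/4) (3/5) (9/25) 6 (39/100) (1/100) x p (p*u^2)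
      (3*(p*u) - p + 4*(3/5)*(p*(p*u^2))) * (1/64)
      = Pbx2_9 (x - 0) (p - 0) ((1/2) - p) (u - (1/2)) (1 - u) := by
    unfold scN Pbx2_9
    ring
  have h := Pbx2_9_nn (x - 0) (p - 0) ((1/2) - p) (u - (1/2)) (1 - u)
    (sub_nonneg.2 h1) (sub_nonneg.2 h3) (sub_nonneg.2 h4) (sub_nonneg.2 h5) (sub_nonneg.2 h6)
  rw [← key] at h
  exact nonneg_of_mul_nonneg_left h (by norm_num)

end Helper35.HC
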